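import Pool.Agent.Lib.MP_75b31c_lc.D40.Iface

set_option autoImplicit false

/-!
# CLASM: assembly of the unraveling of a closed set (MP_75b31c_lc, Part A)
-/

namespace Pool.Agent.Lib.MP_75b31c_lc.D40.H62

theorem mv_valid (T : GT) (k : ℕ) (C : Set T.Q) (σ : (clT T k C).Q → (clT T k C).Q)
    (s : (clT T k C).Q) : mv T k C σ s.1 = (σ s).1 := by
  unfold mv
  rw [dif_pos s.2]
  rfl

theorem low_eq (T : GT) (k : ℕ) (C : Set T.Q) (s : (clT T k C).Q)
    (h : T.len s.1.q ≤ 2 * k) : s.1 = ⟨s.1.q, ∅, Opt.none⟩ := by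
  ext1
  · rfl
  · exact s.2.low h
  · exact s.2.low' (by omega)

theorem clasm : CLASM_S := by
  intro hpay hstr hlift hloc T k C
  let c : Cov (clT T k C) T :=
    { p := clP T k C
      φ := phi T k C
      strat := fun j σ hσ => hstr T k C j σ hσ
      lift := fun j σ hσ x hx hc => hlift T k C j σ hσ x hx hc
      loc := fun j σ σ' m hσ hσ' h q hq ht => hloc T k C j σ σ' m hσ hσ' h q hq ht }
  refine ⟨clT T k C, c, ⟨?_, ?_, ?_⟩, hpay T k C⟩
  · intro s s' h h' he
    apply Subtype.ext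
    have h1 : T.len s.1.q ≤ 2 * k := h
    have h1' : T.len s'.1.q ≤ 2 * k := h'
    have he' : s.1.q = s'.1.q := he
    rw [low_eq T k C s h1, low_eq T k C s' h1', he']
  · intro p hp
    refine ⟨⟨⟨p, ∅, Opt.none⟩, ⟨fun _ => rfl, fun _ => rfl, fun h => ?_, fun h => ?_⟩⟩, rfl⟩
    · simp only at h
      omega
    · simp only at h
      omega
  · intro j σ s hσ hs ht
    have hs' : T.len s.1.q < 2 * k := hs
    have key : mv T k C σ ⟨s.1.q, ∅, Opt.none⟩ = (σ s).1 := by
      rw [← low_eq T k C s hs'.le]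
      exact mv_valid T k C σ s
    change phi T k C j σ s.1.q = (σ s).1.q
    unfold phi
    cases j
    · rw [if_neg (by simp)]
      unfold phiI
      rw [if_pos hs'.le, key]
    · rw [if_pos rfl]
      unfold phiII
      rw [if_pos hs'.le, key]

end Pool.Agent.Lib.MP_75b31c_lc.D40.H62
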