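import Pool.Agent.Lib.MP_75b31c_lc.D40.Iface

set_option autoImplicit false

/-!
# COMP: composition of coverings (MP_75b31c_lc, Part A)
-/

namespace Pool.Agent.Lib.MP_75b31c_lc.D40.H62

theorem comp : COMP_S := by
  intro S T U c d
  refine ⟨{ p :=
              { f := fun q => d.p.f (c.p.f q)
                len_f := fun q => by rw [d.p.len_f, c.p.len_f]
                res_f := fun n q => by rw [d.p.res_f, c.p.res_f] }
            φ := fun j σ => d.φ j (c.φ j σ)
            strat := fun j σ hσ => d.strat j _ (c.strat j σ hσ)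
            lift := fun j σ hσ x hx hc => ?_
            loc := fun j σ σ' m hσ hσ' h => ?_ }, fun _ => rfl, ?_⟩
  · obtain ⟨y, hy, hyc, hyx⟩ := d.lift j _ (c.strat j σ hσ) x hx hc
    obtain ⟨z, hz, hzc, hzy⟩ := c.lift j σ hσ y hy hyc
    refine ⟨z, hz, hzc, fun n => ?_⟩
    change d.p.f (c.p.f (z n)) = x n
    rw [hzy, hyx]
  · exact d.loc j _ _ m (c.strat j σ hσ) (c.strat j σ' hσ') (c.loc j σ σ' m hσ hσ' h)
  · intro m hc hd
    refine ⟨?_, ?_, ?_⟩
    · intro q q' h h' he
      refine hc.1 q q' h h' (hd.1 _ _ ?_ ?_ he)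
      · rw [c.p.len_f]
        exact h
      · rw [c.p.len_f]
        exact h'
    · intro p hp
      obtain ⟨t, ht⟩ := hd.2.1 p hp
      have hl : T.len t ≤ m := by
        rw [← d.p.len_f, ht]
        exact hp
      obtain ⟨s, hs⟩ := hc.2.1 t hl
      exact ⟨s, by simp only [hs, ht]⟩
    · intro j σ q hσ hq ht
      have h1 : T.len (c.p.f q) < m := by
        rw [c.p.len_f]
        exact hq
      have h2 : Turn j (T.len (c.p.f q)) := by
        rw [c.p.len_f]
        exact ht
      have h3 := hd.2.2 j (c.φ j σ) (c.p.f q) (c.strat j σ hσ) h1 h2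
      have h4 := hc.2.2 j σ q hσ hq ht
      change d.φ j (c.φ j σ) (d.p.f (c.p.f q)) = d.p.f (c.p.f (σ q))
      rw [h3, h4]

end Pool.Agent.Lib.MP_75b31c_lc.D40.H62
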